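import Pool.Agent.Helper19.NF.Defs

/-!
# Programs which inspect nearly all cells: the nodes of a sequence of labels are different
-/

namespace Pool.Agent.Helper18.NF

open Pool.Agent.Helper19.NF

variable {n m : ℕ} [NeZero m]

/-- The number of the steps to the side among the first `l` steps. -/
def xs (L : Fin (n - 1) → Label n m) : ℕ → ℕ
  | 0 => 0
  | l + 1 => xs L l + (if (dirs L l).1 then 1 else 0)

omit [NeZero m] in
theorem pos_fst (L : Fin (n - 1) → Label n m) (l : ℕ) : (pos n (dirs L) l).1 = ((xs L l : ℕ) : ZMod (n + 1)) := by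
  induction l with
  | zero => simp [pos, xs]
  | succ l ih =>
    have h : (pos n (dirs L) (l + 1)).1 = (pos n (dirs L) l).1 + (if (dirs L l).1 then 1 else 0) := rfl
    rw [h, ih, xs]
    by_cases h1 : (dirs L l).1 <;> simp [h1]

omit [NeZero m] in
theorem xs_le (L : Fin (n - 1) → Label n m) (l : ℕ) : xs L l ≤ l := by
  induction l with
  | zero => exact le_rfl
  | succ l ih =>
    rw [xs]
    split_ifs <;> omega

omit [NeZero m] in
theorem xs_mono (L : Fin (n - 1) → Label n m) (l j : ℕ) : xs L l ≤ xs L (l + j) ∧ xs L (l + j) ≤ xs L l + j := by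
  induction j with
  | zero => exact ⟨le_rfl, le_rfl⟩
  | succ j ih =>
    have h : xs L (l + (j + 1)) = xs L (l + j) + (if (dirs L (l + j)).1 then 1 else 0) := rfl
    rw [h]
    obtain ⟨h1, h2⟩ := ih
    split_ifs <;> constructor <;> omega

/-- The coordinate of the node of a label. -/
def cx (L : Fin (n - 1) → Label n m) (a : Fin (n - 1)) : ℕ :=
  match (L a).2 with
  | .inl _ => xs L (a.val + 1)
  | .inr y => xs L (a.val + 1) + (if oth L a then y.1.val else 0)

omit [NeZero m] in
theorem pst_fst (L : Fin (n - 1) → Label n m) (a : Fin (n - 1)) (t : ZMod m) :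
    (pst L a t).1 = ((cx L a : ℕ) : ZMod (n + 1)) := by
  unfold pst cx
  rcases (L a).2 with d | y
  · exact pos_fst L _
  · show (pos n (dirs L) (a.val + 1)).1 + (if oth L a then (y.1.val : ZMod (n + 1)) else 0) =
      ((xs L (a.val + 1) + (if oth L a then y.1.val else 0) : ℕ) : ZMod (n + 1))
    rw [pos_fst]
    by_cases h : oth L a <;> simp [h]

omit [NeZero m] in
theorem lev_bounds (L : Fin (n - 1) → Label n m) (hL : Valid L) (a : Fin (n - 1)) :
    a.val + 1 ≤ lev L a ∧ lev L a < n := by
  have h := hL a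
  have ha := a.2
  unfold lev
  rcases hc : (L a).2 with d | y
  · show a.val + 1 ≤ a.val + 1 ∧ a.val + 1 < n
    omega
  · rw [hc] at h
    exact ⟨Nat.le_add_right _ _, h.2⟩

omit [NeZero m] in
/-- Between the path and the node of the label. -/
theorem cx_bounds (L : Fin (n - 1) → Label n m) (a : Fin (n - 1)) :
    xs L (a.val + 1) ≤ cx L a ∧ cx L a + (a.val + 1) ≤ xs L (a.val + 1) + lev L a ∧
    ((dirs L (a.val + 1)).1 = true → cx L a = xs L (a.val + 1)) ∧
    ((dirs L (a.val + 1)).1 = false → cx L a + (a.val + 1) = xs L (a.val + 1) + lev L a) := by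
  unfold cx lev
  rcases hc : (L a).2 with d | y
  · exact ⟨le_rfl, le_rfl, fun _ => rfl, fun _ => rfl⟩
  · dsimp only
    by_cases h : (dirs L (a.val + 1)).1
    · have ho : oth L a = false := by
        unfold oth
        rw [h]
        rfl
      rw [ho]
      simp only [Bool.false_eq_true, if_false]
      refine ⟨by omega, by omega, fun _ => rfl, fun h' => ?_⟩
      rw [h] at h'
      exact absurd h' (by simp)
    · have ho : oth L a = true := by
        unfold oth
        simpa using h
      rw [ho]
      simp only [if_true]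
      refine ⟨by omega, by omega, fun h' => absurd h' h, fun _ => by omega⟩

omit [NeZero m] in
theorem nd_lt (L : Fin (n - 1) → Label n m) (a b : Fin (n - 1)) (hab : a < b)
    (h1 : lev L a = lev L b) (h2 : cx L a = cx L b) : False := by
  obtain ⟨p1, p2, p3, p4⟩ := cx_bounds L a
  obtain ⟨q1, q2, -, -⟩ := cx_bounds L b
  obtain ⟨j, hj⟩ : ∃ j, b.val + 1 = (a.val + 1 + 1) + j := ⟨b.val - a.val - 1, by
    have : a.val < b.val := hab
    omega⟩
  obtain ⟨r1, r2⟩ := xs_mono L (a.val + 1 + 1) j
  rw [← hj] at r1 r2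
  have e1 : xs L (a.val + 1 + 1) = xs L (a.val + 1) + (if (dirs L (a.val + 1)).1 then 1 else 0) := rfl
  by_cases h : (dirs L (a.val + 1)).1
  · rw [if_pos h] at e1
    have := p3 h
    omega
  · rw [if_neg h] at e1
    have := p4 (by simpa using h)
    omega

omit [NeZero m] in
theorem cx_lt (L : Fin (n - 1) → Label n m) (hL : Valid L) (a : Fin (n - 1)) : cx L a < n + 1 := by
  obtain ⟨-, p2, -, -⟩ := cx_bounds L a
  have h1 := xs_le L (a.val + 1)
  have h2 := (lev_bounds L hL a).2
  omega

omit [NeZero m] in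
theorem pst_snd (L : Fin (n - 1) → Label n m) (a : Fin (n - 1)) (t : ZMod m) (h : ¬ (L a).2.isLeft) :
    (pst L a t).2 = t := by
  unfold pst
  revert h
  rcases (L a).2 with d | y
  · intro h
    exact absurd rfl h
  · intro _
    rfl

omit [NeZero m] in
/-- F7: the nodes of a sequence of labels are different. -/
theorem nd_inj (L : Fin (n - 1) → Label n m) (hL : Valid L) :
    Function.Injective (fun x : Idx L => (n - lev L x.1, pst L x.1 x.2.1)) := by
  rintro ⟨a, t⟩ ⟨b, s⟩ h
  have h1 : n - lev L a = n - lev L b := congrArg (fun z => z.1) h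
  have h2 : pst L a t.1 = pst L b s.1 := congrArg (fun z => z.2) h
  have hla := lev_bounds L hL a
  have hlb := lev_bounds L hL b
  have h3 : lev L a = lev L b := by omega
  have h4 : cx L a = cx L b := by
    have h5 : (pst L a t.1).1 = (pst L b s.1).1 := congrArg (fun z => z.1) h2
    rw [pst_fst, pst_fst] at h5
    have h6 := congrArg ZMod.val h5
    rwa [ZMod.val_natCast, ZMod.val_natCast, Nat.mod_eq_of_lt (cx_lt L hL a), Nat.mod_eq_of_lt (cx_lt L hL b)] at h6
  have hab : a = b := by
    rcases lt_trichotomy a b with hlt | heq | hgt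
    · exact (nd_lt L a b hlt h3 h4).elim
    · exact heq
    · exact (nd_lt L b a hgt h3.symm h4.symm).elim
  subst hab
  have hts : t = s := by
    apply Subtype.ext
    by_cases hc : (L a).2.isLeft
    · rw [t.2 hc, s.2 hc]
    · have h5 : (pst L a t.1).2 = (pst L a s.1).2 := congrArg (fun z => z.2) h2
      rwa [pst_snd L a _ hc, pst_snd L a _ hc] at h5
  rw [hts]

omit [NeZero m] in
/-- F7b: the rows are between `1` and `n - 1`. -/
theorem nd_row (L : Fin (n - 1) → Label n m) (hL : Valid L) (a : Fin (n - 1)) : 1 ≤ n - lev L a ∧ n - lev L a < n := by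
  have h := lev_bounds L hL a
  omega

end Pool.Agent.Helper18.NF
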