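import Pool.Agent.Helper78.NF.Root

/-!
# The root: some cell used by the result is never queried

The first one in a fixed order is taken; so the bound does not grow with the number of these cells.
-/

set_option autoImplicit false

namespace Pool.Agent.Helper18.NF

open Pool.Agent.Helper19.NF Pool.Agent.Helper78.NF

section prog

variable {C W Z : Type} {σ S : ℕ}

theorem asks_congr (P : Prog C W Z σ S) (I J : C → W) (q : Fin S) (b : C) (hIJ : ∀ c, c ≠ b → I c = J c)
    (hA : ¬ P.Asks I q b) (c : C) : P.Asks J q c ↔ P.Asks I q c := by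
  constructor
  · rintro ⟨j, next, h⟩
    refine ⟨j, next, ?_⟩
    rw [← iter_congr P I J q b hIJ hA j]
    exact h
  · rintro ⟨j, next, h⟩
    refine ⟨j, next, ?_⟩
    rw [iter_congr P I J q b hIJ hA j]
    exact h

end prog

section net

variable {U D B : Type} [Fintype D] [AddCommGroup B]

/-- The first cell in the order of `κ` which is not queried is the one of `t`. -/
def First {κ Z : Type} [LinearOrder κ] {σ S : ℕ} (g : D → Equiv.Perm U) (x0 : U → B) (m : ℕ)
    (P : Prog B (D → B) Z σ S) (q : Fin S) (w : U) (cs : κ → D) (t : κ) (I : B → D → B) : Prop :=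
  ¬ P.Asks I q (val g x0 I m (g (cs t) w)) ∧ ∀ t' < t, P.Asks I q (val g x0 I m (g (cs t') w))

theorem root_first {κ Z : Type} [LinearOrder κ] [Fintype U] [DecidableEq D] [Fintype B] {σ S : ℕ}
    (g : D → Equiv.Perm U) (x0 : U → B) (m : ℕ) (P : Prog B (D → B) Z σ S) (q : Fin S)
    (w : U) (cs : κ → D) (t : κ) (φ : B → Z) (p : ℕ) (hφ : ∀ z, Nat.card {b // φ b = z} ≤ p) :
    Nat.card {I : B → D → B // CF g x0 (m + 1) I ∧ P.Outputs I q (φ (val g x0 I (m + 1) w)) ∧
      First g x0 m P q w cs t I} * Fintype.card B ≤ p * Nat.card {I : B → D → B // First g x0 m P q w cs t I} := by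
  classical
  set c := cs t with hc
  rw [Nat.card_eq_fintype_card, Fintype.card_subtype, Nat.card_eq_fintype_card, Fintype.card_subtype]
  set X : Finset (B → D → B) := Finset.univ.filter (fun I => CF g x0 (m + 1) I ∧
    P.Outputs I q (φ (val g x0 I (m + 1) w)) ∧ First g x0 m P q w cs t I) with hX
  have hXm : ∀ I ∈ X, CF g x0 (m + 1) I ∧
    P.Outputs I q (φ (val g x0 I (m + 1) w)) ∧ First g x0 m P q w cs t I :=
    fun I hI => (Finset.mem_filter.mp hI).2
  rw [← Finset.card_univ (α := B), ← Finset.card_product]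
  -- facts on the changed instances
  have fact : ∀ (J : B → D → B) (x : (B → D → B) × B), x ∈ X ×ˢ (Finset.univ : Finset B) →
      chg g x0 m (g c w) c x = J →
      (∀ v, val g x0 x.1 m v = val g x0 J m v) ∧
      val g x0 J (m + 1) w = val g x0 x.1 (m + 1) w + x.2 ∧
      ∀ b d, ¬ (b = val g x0 J m (g c w) ∧ d = c) → J b d = x.1 b d := by
    intro J x hx hJ
    have hCF := (hXm _ (Finset.mem_product.mp hx).1).1
    have h1 : ∀ v, val g x0 x.1 m v = val g x0 J m v := fun v => by
      rw [← hJ]
      exact (chg_val x hCF m le_rfl _).symm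
    refine ⟨h1, ?_, ?_⟩
    · rw [← hJ]
      exact chg_top x hCF
    · intro b d hbd
      rw [← hJ]
      unfold chg
      rw [if_neg]
      rw [h1]
      exact hbd
  apply Finset.card_le_mul_card_image_of_maps_to (f := chg g x0 m (g c w) c)
  · -- the changed instance has the same first cell
    intro x hx
    obtain ⟨f1, -, f3⟩ := fact _ x hx rfl
    obtain ⟨-, -, hF⟩ := hXm _ (Finset.mem_product.mp hx).1
    have hIJ : ∀ b, b ≠ val g x0 x.1 m (g c w) → x.1 b = chg g x0 m (g c w) c x b := by
      intro b hb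
      funext d
      rw [f3 b d]
      rintro ⟨h, -⟩
      rw [← f1] at h
      exact hb h
    rw [Finset.mem_filter]
    refine ⟨Finset.mem_univ _, ?_, fun t' ht' => ?_⟩
    · rw [asks_congr P x.1 _ q _ hIJ hF.1, ← f1]
      exact hF.1
    · rw [asks_congr P x.1 _ q _ hIJ hF.1, ← f1]
      exact hF.2 t' ht'
  · intro J _
    rcases ((X ×ˢ (Finset.univ : Finset B)).filter (fun x => chg g x0 m (g c w) c x = J)).eq_empty_or_nonempty with
      he | ⟨x', hx'⟩
    · rw [he]
      simp
    · rw [Finset.mem_filter] at hx'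
      obtain ⟨hx'X, hx'J⟩ := hx'
      obtain ⟨f1', f2', f3'⟩ := fact J x' hx'X hx'J
      obtain ⟨_, hO', hA'⟩ := hXm _ (Finset.mem_product.mp hx'X).1
      have hp := hφ (φ (val g x0 x'.1 (m + 1) w))
      rw [Nat.card_eq_fintype_card, Fintype.card_subtype] at hp
      refine le_trans ?_ hp
      apply Finset.card_le_card_of_injOn (fun x => val g x0 x.1 (m + 1) w)
      · intro x hx
        rw [Finset.mem_coe, Finset.mem_filter] at hx
        obtain ⟨hxX, hxJ⟩ := hx
        obtain ⟨f1, f2, f3⟩ := fact J x hxX hxJ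
        obtain ⟨_, hO, _⟩ := hXm _ (Finset.mem_product.mp hxX).1
        rw [Finset.mem_coe, Finset.mem_filter]
        refine ⟨Finset.mem_univ _, ?_⟩
        have hO2 : P.Outputs x.1 q (φ (val g x0 x'.1 (m + 1) w)) := by
          refine outputs_congr P x'.1 x.1 q (val g x0 x'.1 m (g c w)) ?_ hA'.1 hO'
          intro b hb
          funext d
          rw [f1'] at hb
          rw [← f3' b d (fun h => hb h.1), ← f3 b d (fun h => hb h.1)]
        exact outputs_unique P x.1 q hO hO2
      · intro x hx y hy hxy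
        rw [Finset.mem_coe, Finset.mem_filter] at hx hy
        obtain ⟨hxX, hxJ⟩ := hx
        obtain ⟨hyX, hyJ⟩ := hy
        obtain ⟨f1, f2, f3⟩ := fact J x hxX hxJ
        obtain ⟨k1, k2, k3⟩ := fact J y hyX hyJ
        have hxy' : val g x0 x.1 (m + 1) w = val g x0 y.1 (m + 1) w := hxy
        have e2 : x.2 = y.2 := by
          rw [f2, hxy'] at k2
          exact add_left_cancel k2
        refine Prod.ext ?_ e2
        funext b d
        by_cases hbd : b = val g x0 J m (g c w) ∧ d = c
        · have a1 : J b d = x.1 b d + x.2 := by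
            rw [← hxJ]
            unfold chg
            rw [if_pos (by rw [f1]; exact hbd)]
          have a2 : J b d = y.1 b d + y.2 := by
            rw [← hyJ]
            unfold chg
            rw [if_pos (by rw [k1]; exact hbd)]
          rw [a1, e2] at a2
          exact add_right_cancel a2
        · rw [← f3 b d hbd, ← k3 b d hbd]

/-- If some of the cells given by the directions `cs t` is never queried, the result is right with probability at most
`p / |B|`. -/
theorem root_bound_ex {κ Z : Type} [Fintype κ] [LinearOrder κ] [Fintype U] [DecidableEq D] [Fintype B] {σ S : ℕ}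
    (g : D → Equiv.Perm U) (x0 : U → B) (n : ℕ) (hn : 1 ≤ n) (P : Prog B (D → B) Z σ S) (q : Fin S)
    (w : U) (cs : κ → D) (φ : B → Z) (p : ℕ) (hφ : ∀ z, Nat.card {b // φ b = z} ≤ p) :
    Nat.card {I : B → D → B // CF g x0 n I ∧ P.Outputs I q (φ (val g x0 I n w)) ∧
      ∃ t, ¬ P.Asks I q (val g x0 I (n - 1) (g (cs t) w))} * Fintype.card B ≤ p * Nat.card (B → D → B) := by
  classical
  obtain ⟨m, rfl⟩ : ∃ m, n = m + 1 := ⟨n - 1, by omega⟩
  rw [Nat.add_sub_cancel]
  -- the first one
  have hex : ∀ I : B → D → B, (∃ t, ¬ P.Asks I q (val g x0 I m (g (cs t) w))) →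
      ∃ t, First g x0 m P q w cs t I := by
    intro I hI
    have hne : (Finset.univ.filter (fun t => ¬ P.Asks I q (val g x0 I m (g (cs t) w)))).Nonempty := by
      obtain ⟨t, ht⟩ := hI
      exact ⟨t, Finset.mem_filter.2 ⟨Finset.mem_univ _, ht⟩⟩
    refine ⟨_, (Finset.mem_filter.1 (Finset.min'_mem _ hne)).2, fun t' ht' => ?_⟩
    by_contra hcon
    exact absurd (Finset.min'_le _ t' (Finset.mem_filter.2 ⟨Finset.mem_univ _, hcon⟩)) (not_le.2 ht')
  have h1 : Nat.card {I : B → D → B // CF g x0 (m + 1) I ∧ P.Outputs I q (φ (val g x0 I (m + 1) w)) ∧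
      ∃ t, ¬ P.Asks I q (val g x0 I m (g (cs t) w))} ≤
      ∑ t : κ, Nat.card {I : B → D → B // CF g x0 (m + 1) I ∧ P.Outputs I q (φ (val g x0 I (m + 1) w)) ∧
      First g x0 m P q w cs t I} := by
    rw [← Nat.card_sigma]
    choose f hf using fun I : {I : B → D → B // CF g x0 (m + 1) I ∧ P.Outputs I q (φ (val g x0 I (m + 1) w)) ∧
      ∃ t, ¬ P.Asks I q (val g x0 I m (g (cs t) w))} => hex I.1 I.2.2.2
    refine Nat.card_le_card_of_injective (fun I => ⟨f I, I.1, I.2.1, I.2.2.1, hf I⟩) ?_
    intro I I' h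
    have h2 := congrArg (fun z : Σ t : κ, {I : B → D → B // CF g x0 (m + 1) I ∧
      P.Outputs I q (φ (val g x0 I (m + 1) w)) ∧ First g x0 m P q w cs t I} => z.2.1) h
    exact Subtype.ext h2
  have h2 : ∑ t : κ, Nat.card {I : B → D → B // First g x0 m P q w cs t I} ≤ Nat.card (B → D → B) := by
    rw [← Nat.card_sigma]
    refine Nat.card_le_card_of_injective (fun z => z.2.1) ?_
    rintro ⟨t, I, hI⟩ ⟨t', I', hI'⟩ h
    dsimp only at h
    subst h
    have ht : t = t' := by
      rcases lt_trichotomy t t' with hlt | heq | hgt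
      · exact absurd (hI'.2 t hlt) hI.1
      · exact heq
      · exact absurd (hI.2 t' hgt) hI'.1
    subst ht
    rfl
  calc _ ≤ (∑ t : κ, Nat.card {I : B → D → B // CF g x0 (m + 1) I ∧ P.Outputs I q (φ (val g x0 I (m + 1) w)) ∧
      First g x0 m P q w cs t I}) * Fintype.card B := Nat.mul_le_mul_right _ h1
    _ = ∑ t : κ, Nat.card {I : B → D → B // CF g x0 (m + 1) I ∧ P.Outputs I q (φ (val g x0 I (m + 1) w)) ∧
      First g x0 m P q w cs t I} * Fintype.card B := Finset.sum_mul _ _ _
    _ ≤ ∑ t : κ, p * Nat.card {I : B → D → B // First g x0 m P q w cs t I} :=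
      Finset.sum_le_sum fun t _ => root_first g x0 m P q w cs t φ p hφ
    _ = p * ∑ t : κ, Nat.card {I : B → D → B // First g x0 m P q w cs t I} := (Finset.mul_sum _ _ _).symm
    _ ≤ p * Nat.card (B → D → B) := Nat.mul_le_mul_left _ h2

end net

/-- The case of the ring: a letter of the node `0` in the row `n - 1` is never used for a query. -/
theorem root_bound_ring {n m : ℕ} [NeZero m] {B Z : Type} [AddCommGroup B] [Fintype B] {σ S : ℕ} (hn : 1 ≤ n)
    (x0 : Pos n m → B) (P : Prog B (Dir m → B) Z σ S) (q : Fin S) (φ : B → Z) (p : ℕ)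
    (hφ : ∀ z, Nat.card {b // φ b = z} ≤ p) :
    Nat.card {I : B → Dir m → B // CF (ring n m) x0 n I ∧ P.Outputs I q (φ (val (ring n m) x0 I n (0, 0))) ∧
      ∃ t : ZMod m, ¬ P.Asks I q (val (ring n m) x0 I (n - 1) (ring n m (false, t) (0, 0)))} * Fintype.card B ≤
      p * Nat.card (B → Dir m → B) := by
  letI : LinearOrder (ZMod m) := LinearOrder.lift' ZMod.val (ZMod.val_injective m)
  exact root_bound_ex (ring n m) x0 n hn P q (0, 0) (fun t : ZMod m => (false, t)) φ p hφ

end Pool.Agent.Helper18.NF
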